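import Pool.Agent.Q105.Poly.Four

/-!
# No polygonal digraph has Laplacian spread strictly between zero and one

Definitions used (in `Pool.Agent.Q105.Poly.Defs`): `outDeg`, the Laplacian `lap`, the restricted
numerical range `Wr`, the values `realValues` of the real form, restrictor matrices `IsRestrictor`.
-/

namespace Pool.Agent.Results.MP_e61cf5_co.NoSmallSpread

open Matrix Pool.Agent.Q105.Poly

variable {n : ℕ}

/-- No loops. -/
def Loopless (A : Fin n → Fin n → Prop) : Prop := ∀ i, ¬ A i i

/-- A digraph is polygonal if its restricted numerical range is the convex hull of the eigenvalues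
of `Qᴴ L Q`, where `Q` is a restrictor matrix. -/
def Polygonal (A : Fin n → Fin n → Prop) [DecidableRel A] : Prop :=
  ∃ Q : Matrix (Fin n) (Fin (n - 1)) ℂ, IsRestrictor Q ∧
    Wr (lap A) = convexHull ℝ (spectrum ℂ (Qᴴ * (lap A).map (Int.cast : ℤ → ℂ) * Q))

/-- The Laplacian spread `β - α`. -/
noncomputable def spread (A : Fin n → Fin n → Prop) [DecidableRel A] : ℝ :=
  sSup (realValues (lap A)) - sInf (realValues (lap A))

/-- **Main result.** No polygonal digraph of order `n ≥ 2` has Laplacian spread strictly between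
zero and one.  For `n ≠ 4` this holds for every digraph, polygonal or not. -/
theorem result :
    (∀ n : ℕ, 2 ≤ n → ∀ (A : Fin n → Fin n → Prop) [DecidableRel A], Loopless A → Polygonal A →
      ¬ (0 < spread A ∧ spread A < 1)) ∧
    (∀ n : ℕ, 2 ≤ n → n ≠ 4 → ∀ (A : Fin n → Fin n → Prop) [DecidableRel A], Loopless A →
      ¬ (0 < spread A ∧ spread A < 1)) := by
  refine ⟨?_, ?_⟩
  · rintro n hn A _ hA ⟨Q, hQ, hP⟩ ⟨h0, h1⟩
    obtain ⟨-, κ, ε, z, c, a, b, hε, hzc, hza, hzb, hab, hca, hcb, hall, v1, v2, v3, v4, v5, v6⟩ :=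
      gap hn hA h0 h1
    have hne : (realValues (lap A)).Nonempty := by
      by_contra h
      rw [Set.not_nonempty_iff_eq_empty] at h
      rw [spread, h, Real.sSup_empty, Real.sInf_empty, sub_zero] at h0
      exact lt_irrefl _ h0
    obtain ⟨x, μ, m, hx0, hx, hμ, e1, e2⟩ := end_vector hn (lap A) hQ hP lap_row hne
    exact not_four hA hε hzc hza hzb hab hca hcb hall v1 v2 v3 v4 v5 v6 x μ m hx0 hx hμ e1 e2
  · rintro n hn hn4 A _ hA ⟨h0, h1⟩
    exact hn4 (gap hn hA h0 h1).1

end Pool.Agent.Results.MP_e61cf5_co.NoSmallSpread
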